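import Pool.Agent.Q239.Hex.Comb

/-!
# An optimal 3-plane graph that is not a 2-plane graph plus a forest
-/

set_option autoImplicit false

namespace Pool.Agent.Results.MP_d99f1b_co.NoTwoPlanePlusForest

open Pool.Agent.Q239.Hex

/-- There is an optimal 3-plane graph (simple drawing with polygonal edges, no loops, no homotopic
parallel edges, every edge crossed at most three times, `n = 14` vertices and `66 = 5.5 n - 11`
edges) whose edges cannot be partitioned into two classes of which the first forms a 2-plane graph
(in the given drawing) and the second a forest. -/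
theorem result : ∃ G : TopGraph 14 66, G.IsOptimal3Plane ∧
    ¬ ∃ E₁ E₂ : Finset (Fin 66), E₁ ∪ E₂ = Finset.univ ∧ Disjoint E₁ E₂ ∧
      G.IsPlane 2 E₁ ∧ G.IsForest E₂ :=
  ⟨G, isOptimal, fun ⟨E₁, E₂, h, _, h1, h2⟩ => no_partition E₁ E₂ h h1 h2⟩

end Pool.Agent.Results.MP_d99f1b_co.NoTwoPlanePlusForest
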